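import Pool.Agent.H45.SHA.Stmts

/-!
# SHA, module SRD: the sum of the reciprocals of the radicals
-/

set_option autoImplicit false

namespace Pool.SHA

open Finset Pool.Agent.H98.ABCR

private theorem srd_rad_mul {a b : ℕ} (h : a.Coprime b) : rad (a * b) = rad a * rad b := by
  unfold rad
  rw [h.primeFactors_mul, prod_union h.disjoint_primeFactors]

/-- one dyadic block of primes -/
private theorem srd_block (j : ℕ) (hj : 1 ≤ j) :
    ∑ p ∈ (Finset.Ico (2 ^ j) (2 ^ (j + 1))).filter Nat.Prime, (1 : ℝ) / (p * Real.log p) ≤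
      4 / Real.log 2 * (1 / (j : ℝ) ^ 2) := by
  set T := (Finset.Ico (2 ^ j) (2 ^ (j + 1))).filter Nat.Prime with hT
  have hl2 : 0 < Real.log 2 := Real.log_pos (by norm_num)
  have hj0 : (0 : ℝ) < j := by exact_mod_cast hj
  have hcard : (T.card : ℝ) * (j * Real.log 2) ≤ 2 ^ (j + 2) * Real.log 2 := by
    have h1 : ∑ p ∈ T, (j * Real.log 2) ≤ ∑ p ∈ T, Real.log p := by
      refine Finset.sum_le_sum fun p hp => ?_
      rw [hT, Finset.mem_filter, Finset.mem_Ico] at hp
      rw [← Real.log_pow]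
      refine Real.log_le_log (by positivity) ?_
      exact_mod_cast hp.1.1
    rw [Finset.sum_const, nsmul_eq_mul] at h1
    refine h1.trans ?_
    have h2 : ∑ p ∈ T, Real.log p ≤ Real.log (primorial (2 ^ (j + 1))) := by
      unfold primorial
      rw [Nat.cast_prod, Real.log_prod]
      · refine Finset.sum_le_sum_of_subset_of_nonneg ?_ ?_
        · intro p hp
          rw [hT, Finset.mem_filter, Finset.mem_Ico] at hp
          rw [Finset.mem_filter, Finset.mem_range]
          exact ⟨by omega, hp.2⟩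
        · intro p hp _
          rw [Finset.mem_filter] at hp
          exact Real.log_nonneg (by exact_mod_cast hp.2.one_lt.le)
      · intro p hp
        rw [Finset.mem_filter] at hp
        exact_mod_cast hp.2.ne_zero
    refine h2.trans ?_
    have h3 : (primorial (2 ^ (j + 1)) : ℝ) ≤ (4 : ℝ) ^ (2 ^ (j + 1)) := by
      exact_mod_cast primorial_le_four_pow (2 ^ (j + 1))
    have h4 := Real.log_le_log (by exact_mod_cast primorial_pos (2 ^ (j + 1))) h3
    refine h4.trans (le_of_eq ?_)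
    rw [Real.log_pow, show (4 : ℝ) = 2 ^ 2 by norm_num, Real.log_pow]
    push_cast
    ring
  have hterm : ∀ p ∈ T, (1 : ℝ) / (p * Real.log p) ≤ 1 / (2 ^ j * (j * Real.log 2)) := by
    intro p hp
    rw [hT, Finset.mem_filter, Finset.mem_Ico] at hp
    have h5 : (2 : ℝ) ^ j ≤ p := by exact_mod_cast hp.1.1
    have h6 : j * Real.log 2 ≤ Real.log p := by
      rw [← Real.log_pow]
      exact Real.log_le_log (by positivity) h5
    exact one_div_le_one_div_of_le (by positivity)
      (mul_le_mul h5 h6 (by positivity) (by positivity))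
  refine (Finset.sum_le_sum hterm).trans ?_
  rw [Finset.sum_const, nsmul_eq_mul]
  have h7 : (T.card : ℝ) ≤ 2 ^ (j + 2) / j := by
    rw [le_div_iff₀ hj0]
    have : (T.card : ℝ) * j * Real.log 2 ≤ 2 ^ (j + 2) * Real.log 2 := by linarith
    exact le_of_mul_le_mul_right this hl2
  calc (T.card : ℝ) * (1 / (2 ^ j * (j * Real.log 2)))
      ≤ 2 ^ (j + 2) / j * (1 / (2 ^ j * (j * Real.log 2))) :=
        mul_le_mul_of_nonneg_right h7 (by positivity)
    _ = 4 / Real.log 2 * (1 / (j : ℝ) ^ 2) := by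
        rw [pow_add]
        field_simp
        norm_num

private theorem srd_step (J : ℕ) :
    ∑ p ∈ Nat.primesBelow (2 ^ (J + 1 + 1)), (1 : ℝ) / ((p : ℕ) * Real.log (p : ℕ)) ≤
      ∑ p ∈ Nat.primesBelow (2 ^ (J + 1)), (1 : ℝ) / ((p : ℕ) * Real.log (p : ℕ)) +
      4 / Real.log 2 * (1 / ((J + 1 : ℕ) : ℝ) ^ 2) := by
  have h1 : Nat.primesBelow (2 ^ (J + 1 + 1)) = Nat.primesBelow (2 ^ (J + 1)) ∪
      (Finset.Ico (2 ^ (J + 1)) (2 ^ (J + 1 + 1))).filter Nat.Prime := by
    ext p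
    have h2 : 2 ^ (J + 1) ≤ 2 ^ (J + 1 + 1) := Nat.pow_le_pow_right (by norm_num) (by omega)
    simp only [Nat.primesBelow, Finset.mem_union, Finset.mem_filter, Finset.mem_range,
      Finset.mem_Ico]
    constructor
    · rintro ⟨h3, h4⟩
      rcases lt_or_ge p (2 ^ (J + 1)) with h5 | h5
      · exact Or.inl ⟨h5, h4⟩
      · exact Or.inr ⟨⟨h5, h3⟩, h4⟩
    · rintro (⟨h3, h4⟩ | ⟨⟨h3, h5⟩, h4⟩)
      · exact ⟨by omega, h4⟩
      · exact ⟨h5, h4⟩
  have hdisj : Disjoint (Nat.primesBelow (2 ^ (J + 1)))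
      ((Finset.Ico (2 ^ (J + 1)) (2 ^ (J + 1 + 1))).filter Nat.Prime) := by
    rw [Finset.disjoint_left]
    intro p hp hp2
    simp only [Nat.primesBelow, Finset.mem_filter, Finset.mem_range, Finset.mem_Ico] at hp hp2
    omega
  rw [h1, Finset.sum_union hdisj]
  have h3 := srd_block (J + 1) (by omega)
  linarith

private theorem srd_sum (J : ℕ) :
    ∑ p ∈ Nat.primesBelow (2 ^ (J + 1 + 1)), (1 : ℝ) / ((p : ℕ) * Real.log (p : ℕ)) ≤
      4 / Real.log 2 * (2 - 1 / (J + 1 : ℝ)) := by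
  have hl2 : 0 < Real.log 2 := Real.log_pos (by norm_num)
  induction J with
  | zero =>
    refine (srd_step 0).trans ?_
    have : Nat.primesBelow (2 ^ (0 + 1)) = ∅ := by decide
    rw [this]
    simp only [Finset.sum_empty]
    norm_num
  | succ J ih =>
    refine (srd_step (J + 1)).trans ?_
    refine (add_le_add_left ih _).trans ?_
    rw [← mul_add]
    refine mul_le_mul_of_nonneg_left ?_ (by positivity)
    push_cast
    have h4 : (0 : ℝ) < (J : ℝ) + 1 := by positivity
    have h5 : (0 : ℝ) < (J : ℝ) + 1 + 1 := by positivity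
    have h6 : 1 / ((J : ℝ) + 1) - 1 / ((J : ℝ) + 1 + 1) = 1 / (((J : ℝ) + 1) * ((J : ℝ) + 1 + 1)) := by
      field_simp
      ring
    have h7 : 1 / ((J : ℝ) + 1 + 1) ^ 2 ≤ 1 / (((J : ℝ) + 1) * ((J : ℝ) + 1 + 1)) := by
      apply one_div_le_one_div_of_le (by positivity)
      nlinarith
    linarith

private theorem srd_all (N : ℕ) :
    ∑ p ∈ Nat.primesBelow N, (1 : ℝ) / ((p : ℕ) * Real.log (p : ℕ)) ≤ 12 := by
  have hl2 : 0 < Real.log 2 := Real.log_pos (by norm_num)
  have hl2' : 0.69 < Real.log 2 := lt_trans (by norm_num) Real.log_two_gt_d9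
  have h1 : Nat.primesBelow N ⊆ Nat.primesBelow (2 ^ (N + 1 + 1)) := by
    intro p hp
    simp only [Nat.primesBelow, Finset.mem_filter, Finset.mem_range] at hp ⊢
    refine ⟨hp.1.trans ?_, hp.2⟩
    calc N < 2 ^ N := Nat.lt_two_pow_self
      _ ≤ 2 ^ (N + 1 + 1) := Nat.pow_le_pow_right (by norm_num) (by omega)
  have h2 := Finset.sum_le_sum_of_subset_of_nonneg
    (f := fun p : ℕ => (1 : ℝ) / ((p : ℕ) * Real.log (p : ℕ))) h1 (by
      intro p _ _
      exact div_nonneg zero_le_one (mul_nonneg (Nat.cast_nonneg _) (Real.log_natCast_nonneg _)))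
  refine h2.trans ((srd_sum N).trans ?_)
  have h3 : 4 / Real.log 2 * (2 - 1 / (N + 1 : ℝ)) ≤ 4 / Real.log 2 * 2 := by
    refine mul_le_mul_of_nonneg_left ?_ (by positivity)
    have : (0 : ℝ) ≤ 1 / (N + 1 : ℝ) := by positivity
    linarith
  refine h3.trans ?_
  rw [div_mul_eq_mul_div, div_le_iff₀ hl2]
  linarith

/-- the multiplicative weight -/
private noncomputable def srd_f (s : ℝ) (n : ℕ) : ℝ := (n : ℝ) ^ (-s) / rad n

private theorem srd_f_pow (s : ℝ) (hs : 0 < s) (p : ℕ) (hp : p.Prime) :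
    HasSum (fun n : ℕ => srd_f s (p ^ n)) (1 + 1 / (p * ((p : ℝ) ^ s - 1))) := by
  have hp0 : (0 : ℝ) < p := by exact_mod_cast hp.pos
  have hp1 : (1 : ℝ) < p := by exact_mod_cast hp.one_lt
  have hr0 : 0 ≤ (p : ℝ) ^ (-s) := Real.rpow_nonneg hp0.le _
  have hr1 : (p : ℝ) ^ (-s) < 1 := Real.rpow_lt_one_of_one_lt_of_neg hp1 (by linarith)
  have hg := (hasSum_geometric_of_lt_one hr0 hr1).mul_left ((p : ℝ) ^ (-s) / p)
  have h1 : ∀ n : ℕ, srd_f s (p ^ (n + 1)) = (p : ℝ) ^ (-s) / p * ((p : ℝ) ^ (-s)) ^ n := by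
    intro n
    unfold srd_f
    have hrad : rad (p ^ (n + 1)) = p := by
      unfold rad
      rw [Nat.primeFactors_prime_pow (by omega) hp, Finset.prod_singleton]
    rw [hrad]
    push_cast
    rw [← Real.rpow_natCast ((p : ℝ) ^ (-s)), ← Real.rpow_mul hp0.le,
      ← Real.rpow_natCast (p : ℝ) (n + 1), ← Real.rpow_mul hp0.le, div_mul_eq_mul_div,
      ← Real.rpow_add hp0]
    congr 2
    push_cast
    ring
  have h2 : HasSum (fun n : ℕ => srd_f s (p ^ (n + 1)))
      ((p : ℝ) ^ (-s) / p * (1 - (p : ℝ) ^ (-s))⁻¹) := by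
    rw [funext h1]
    exact hg
  have h3 := (hasSum_nat_add_iff (f := fun n : ℕ => srd_f s (p ^ n)) 1).1 h2
  have h4 : (p : ℝ) ^ (-s) / p * (1 - (p : ℝ) ^ (-s))⁻¹ +
      ∑ i ∈ Finset.range 1, srd_f s (p ^ i) = 1 + 1 / (p * ((p : ℝ) ^ s - 1)) := by
    have h5 : srd_f s 1 = 1 := by simp [srd_f, rad]
    have h6 : 1 < (p : ℝ) ^ s := Real.one_lt_rpow hp1 hs
    rw [Finset.sum_range_one, pow_zero, h5, Real.rpow_neg hp0.le]
    have h7 : (p : ℝ) ^ s - 1 ≠ 0 := by linarith
    have h8 : (p : ℝ) ^ s ≠ 0 := by linarith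
    have h9 : 1 - ((p : ℝ) ^ s)⁻¹ ≠ 0 := by
      have : 1 - ((p : ℝ) ^ s)⁻¹ = ((p : ℝ) ^ s - 1) / (p : ℝ) ^ s := by field_simp
      rw [this]
      exact div_ne_zero h7 h8
    rw [add_comm]
    congr 1
    field_simp
  rw [h4] at h3
  exact h3

private theorem srd_f_nonneg (s : ℝ) (n : ℕ) : 0 ≤ srd_f s n :=
  div_nonneg (Real.rpow_nonneg (Nat.cast_nonneg _) _) (Nat.cast_nonneg _)

theorem srd_thm : S_SRD := by
  classical
  refine ⟨13, by norm_num, fun h hh1 => ?_⟩
  set N : ℕ := ⌊Real.exp h⌋₊ with hN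
  have hsq0 : 0 < Real.sqrt h := Real.sqrt_pos.2 (by linarith)
  set s : ℝ := 1 / Real.sqrt h with hs
  have hs0 : 0 < s := by positivity
  have hhs : h * s = Real.sqrt h := by
    rw [hs, mul_one_div, Real.div_sqrt]
  -- the Euler product
  have hmul : ∀ {m n : ℕ}, Nat.Coprime m n → srd_f s (m * n) = srd_f s m * srd_f s n := by
    intro m n hmn
    unfold srd_f
    rw [srd_rad_mul hmn]
    push_cast
    rw [Real.mul_rpow (Nat.cast_nonneg _) (Nat.cast_nonneg _)]
    rw [div_mul_div_comm]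
  have hEP := (EulerProduct.summable_and_hasSum_smoothNumbers_prod_primesBelow_tsum
    (f := srd_f s) (by simp [srd_f, rad]) hmul (by
      intro p hp
      refine (srd_f_pow s hs0 p hp).summable.congr fun n => ?_
      rw [Real.norm_of_nonneg (srd_f_nonneg s _)]) (N + 1)).2
  have h1 : ∑ n ∈ Finset.Icc 1 N, srd_f s n ≤
      ∏ p ∈ (N + 1).primesBelow, ∑' n : ℕ, srd_f s (p ^ n) := by
    have h2 := sum_le_hasSum
      ((Finset.Icc 1 N).subtype (fun n => n ∈ Nat.smoothNumbers (N + 1)))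
      (fun i _ => srd_f_nonneg s i) hEP
    refine le_trans (le_of_eq ?_) h2
    rw [Finset.sum_subtype_of_mem (f := fun n : ℕ => srd_f s n)]
    intro n hn
    rw [Finset.mem_Icc] at hn
    rw [Nat.mem_smoothNumbers]
    refine ⟨by omega, fun p hp => ?_⟩
    have := Nat.le_of_mem_primeFactorsList hp
    omega
  have h3 : ∏ p ∈ (N + 1).primesBelow, ∑' n : ℕ, srd_f s (p ^ n) ≤
      Real.exp (12 * Real.sqrt h) := by
    calc ∏ p ∈ (N + 1).primesBelow, ∑' n : ℕ, srd_f s (p ^ n)
        ≤ ∏ p ∈ (N + 1).primesBelow,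
          Real.exp (Real.sqrt h * (1 / ((p : ℕ) * Real.log (p : ℕ)))) := by
          refine Finset.prod_le_prod (fun p _ => tsum_nonneg fun n => srd_f_nonneg s _) ?_
          intro p hp
          have hpp : p.Prime := by
            simp only [Nat.primesBelow, Finset.mem_filter] at hp
            exact hp.2
          rw [(srd_f_pow s hs0 p hpp).tsum_eq, add_comm]
          refine (Real.add_one_le_exp _).trans (Real.exp_le_exp.2 ?_)
          have hp1 : (1 : ℝ) < p := by exact_mod_cast hpp.one_lt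
          have hp0 : (0 : ℝ) < p := by linarith
          have hlog : 0 < Real.log p := Real.log_pos hp1
          have h4 : s * Real.log p ≤ (p : ℝ) ^ s - 1 := by
            rw [Real.rpow_def_of_pos hp0]
            have := Real.add_one_le_exp (Real.log p * s)
            linarith
          have h5 : 1 / (p * ((p : ℝ) ^ s - 1)) ≤ 1 / (p * (s * Real.log p)) := by
            apply one_div_le_one_div_of_le (by positivity)
            exact mul_le_mul_of_nonneg_left h4 hp0.le
          refine h5.trans (le_of_eq ?_)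
          rw [hs]
          field_simp
      _ = Real.exp (∑ p ∈ (N + 1).primesBelow,
            Real.sqrt h * (1 / ((p : ℕ) * Real.log (p : ℕ)))) := by
          rw [Real.exp_sum]
      _ ≤ Real.exp (12 * Real.sqrt h) := by
          apply Real.exp_le_exp.2
          rw [← Finset.mul_sum, mul_comm]
          exact mul_le_mul_of_nonneg_right (srd_all (N + 1)) hsq0.le
  have h6 : ∑ n ∈ Finset.Icc 1 N, (1 : ℝ) / rad n ≤
      Real.exp (Real.sqrt h) * ∑ n ∈ Finset.Icc 1 N, srd_f s n := by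
    rw [Finset.mul_sum]
    refine Finset.sum_le_sum fun n hn => ?_
    rw [Finset.mem_Icc] at hn
    have hn0 : (0 : ℝ) < n := by exact_mod_cast hn.1
    have hnh : (n : ℝ) ≤ Real.exp h :=
      (by exact_mod_cast hn.2 : (n : ℝ) ≤ (N : ℝ)).trans (Nat.floor_le (Real.exp_pos h).le)
    unfold srd_f
    rw [mul_div_assoc']
    apply div_le_div_of_nonneg_right _ (Nat.cast_nonneg _)
    have h7 : (n : ℝ) ^ s ≤ Real.exp (Real.sqrt h) := by
      calc (n : ℝ) ^ s ≤ (Real.exp h) ^ s := Real.rpow_le_rpow hn0.le hnh hs0.le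
        _ = Real.exp (Real.sqrt h) := by rw [← Real.exp_mul, hhs]
    rw [Real.rpow_neg hn0.le]
    have h8 : 0 < (n : ℝ) ^ s := Real.rpow_pos_of_pos hn0 _
    rw [← div_eq_mul_inv, le_div_iff₀ h8]
    linarith
  calc ∑ n ∈ Finset.Icc 1 N, (1 : ℝ) / rad n
      ≤ Real.exp (Real.sqrt h) * Real.exp (12 * Real.sqrt h) :=
        h6.trans (mul_le_mul_of_nonneg_left (h1.trans h3) (Real.exp_pos _).le)
    _ = Real.exp (13 * Real.sqrt h) := by rw [← Real.exp_add]; congr 1; ring

end Pool.SHA
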