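import Pool.Agent.H45.SHA.Stmts

/-!
# SHA, module VAN: the points of one residue class near a toric hypersurface lie on a
hypersurface of bounded degree
-/

set_option autoImplicit false

namespace Pool.SHA

open Finset Pool.Agent.H98.ABCR

/-- a family of vectors all of whose square determinants vanish lies in a hyperplane -/
private theorem van_lin {ι : Type*} (m : ℕ) (s : Set ι) (f : ι → Fin m → ℚ)
    (h : ∀ y : Fin m → ι, (∀ i, y i ∈ s) → (Matrix.of fun n i => f (y n) i).det = 0) :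
    ∃ c : Fin m → ℚ, c ≠ 0 ∧ ∀ y ∈ s, ∑ i, c i * f y i = 0 := by
  by_cases ht : Submodule.span ℚ (f '' s) = ⊤
  · exfalso
    obtain ⟨g, hg1, hg2, hg3⟩ := Submodule.exists_fun_fin_finrank_span_eq ℚ (f '' s)
    have hr : Module.finrank ℚ (Submodule.span ℚ (f '' s)) = m := by
      rw [ht, finrank_top]; simp
    choose y hy1 hy2 using hg1
    have hli : LinearIndependent ℚ (fun i : Fin m => g (Fin.cast hr.symm i)) :=
      hg3.comp _ (Fin.cast_injective _)
    have hdet := h (fun i => y (Fin.cast hr.symm i)) (fun i => hy1 _)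
    have hM : (Matrix.of fun n i : Fin m => f (y (Fin.cast hr.symm n)) i) =
        Matrix.of (fun i : Fin m => g (Fin.cast hr.symm i)) := by
      ext n i
      simp only [Matrix.of_apply]
      rw [hy2]
    have hu : IsUnit (Matrix.of (fun i : Fin m => g (Fin.cast hr.symm i))) := by
      rw [← Matrix.linearIndependent_rows_iff_isUnit]
      exact hli
    rw [Matrix.isUnit_iff_isUnit_det] at hu
    rw [← hM] at hu
    exact hu.ne_zero hdet
  · obtain ⟨φ, hφ0, hφ⟩ := Submodule.exists_le_ker_of_lt_top _ (lt_top_iff_ne_top.2 ht)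
    refine ⟨fun i => φ (Pi.single i 1), ?_, ?_⟩
    · intro h0
      apply hφ0
      apply LinearMap.pi_ext'
      intro i
      ext
      have := congrFun h0 i
      simpa using this
    · intro y hy
      have h1 : f y ∈ LinearMap.ker φ := hφ (Submodule.subset_span ⟨y, hy, rfl⟩)
      rw [LinearMap.mem_ker] at h1
      have h2 : f y = ∑ i, f y i • (Pi.single i (1 : ℚ) : Fin m → ℚ) := by
        ext j
        simp [Finset.sum_apply, Pi.single_apply]
      rw [h2, map_sum] at h1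
      rw [← h1]
      refine Finset.sum_congr rfl fun i _ => ?_
      rw [map_smul, smul_eq_mul, mul_comm]

/-- determinants of congruent matrices are congruent -/
private theorem van_cong {m : ℕ} (N : ℕ) (A A' : Matrix (Fin m) (Fin m) ℤ)
    (h : ∀ i j, A i j ≡ A' i j [ZMOD N]) : (N : ℤ) ∣ A.det - A'.det := by
  have h1 : A.map (Int.castRingHom (ZMod N)) = A'.map (Int.castRingHom (ZMod N)) := by
    ext i j
    simp only [Matrix.map_apply, eq_intCast]
    exact (ZMod.intCast_eq_intCast_iff _ _ _).2 (h i j)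
  have h2 : ((A.det : ℤ) : ZMod N) = ((A'.det : ℤ) : ZMod N) := by
    have e1 := RingHom.map_det (Int.castRingHom (ZMod N)) A
    have e2 := RingHom.map_det (Int.castRingHom (ZMod N)) A'
    simp only [RingHom.mapMatrix_apply, eq_intCast] at e1 e2
    rw [e1, e2, h1]
  have h3 := (ZMod.intCast_eq_intCast_iff _ _ _).1 h2
  exact (Int.modEq_iff_dvd.1 h3.symm)

/-- an integer matrix with entries at most `x` -/
private theorem van_bound {m : ℕ} (A : Matrix (Fin m) (Fin m) ℤ) (x : ℝ)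
    (h : ∀ i j, |(A i j : ℝ)| ≤ x) : |(A.det : ℝ)| ≤ (m.factorial : ℝ) * x ^ m := by
  have h1 : ((A.det : ℤ) : ℝ) = (A.map (Int.castRingHom ℝ)).det := by
    have e1 := RingHom.map_det (Int.castRingHom ℝ) A
    simpa [RingHom.mapMatrix_apply] using e1
  rw [h1]
  have h2 := Matrix.det_le (A := A.map (Int.castRingHom ℝ)) (abv := AbsoluteValue.abs) (x := x)
    (by intro i j; simpa using h i j)
  simpa [nsmul_eq_mul] using h2

/-- numerical choice of the parameters -/
private theorem van_num (k M f e : ℕ) (κ B P : ℝ) (hκ : 0 < κ) (hM1 : 1 ≤ M)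
    (hM : (4 * ((k : ℝ) + 1) ^ 2 + 4) / κ ≤ M)
    (hB : 1 ≤ B) (hP : B ^ κ ≤ P ^ f)
    (he : e = M ^ (k + 1) * ((2 * M ^ k) ^ (k + 1) - (M ^ (k + 1)) ^ k)) :
    B ^ ((k + 1) ^ 2 * (2 * M ^ k - 1) * (2 * M ^ k) ^ (k + 1) + 1) ≤ P ^ (f * e) := by
  have hB0 : (0 : ℝ) < B := by linarith
  have h1 : B ^ (κ * (e : ℝ)) ≤ P ^ (f * e) := by
    rw [Real.rpow_mul hB0.le, Real.rpow_natCast, pow_mul]
    exact pow_le_pow_left₀ (Real.rpow_nonneg hB0.le _) hP _
  refine le_trans ?_ h1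
  rw [← Real.rpow_natCast]
  refine Real.rpow_le_rpow_of_exponent_le hB ?_
  set m : ℕ := (2 * M ^ k) ^ (k + 1) with hm
  have hD : 2 * (M ^ (k + 1)) ^ k ≤ m := by
    rw [hm, mul_pow, ← pow_mul, ← pow_mul, mul_comm (k + 1) k]
    refine Nat.mul_le_mul_right _ ?_
    calc 2 = 2 ^ 1 := by norm_num
      _ ≤ 2 ^ (k + 1) := Nat.pow_le_pow_right (by norm_num) (by omega)
  have he2 : M ^ (k + 1) * m ≤ 2 * e := by
    rw [he]
    have : m ≤ 2 * (m - (M ^ (k + 1)) ^ k) := by omega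
    calc M ^ (k + 1) * m ≤ M ^ (k + 1) * (2 * (m - (M ^ (k + 1)) ^ k)) :=
          Nat.mul_le_mul_left _ this
      _ = 2 * (M ^ (k + 1) * (m - (M ^ (k + 1)) ^ k)) := by ring
  have he3 : (M : ℝ) ^ (k + 1) * m ≤ 2 * (e : ℝ) := by exact_mod_cast he2
  have hMk : 4 * ((k : ℝ) + 1) ^ 2 + 4 ≤ κ * M := by
    rw [div_le_iff₀ hκ] at hM; linarith
  have hMkp : (1 : ℝ) ≤ (M : ℝ) ^ k := by
    apply one_le_pow₀; exact_mod_cast hM1
  have hm1 : (1 : ℝ) ≤ (m : ℝ) := by
    have : 1 ≤ m := by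
      rw [hm]; apply Nat.one_le_pow
      have := Nat.one_le_pow k M hM1
      omega
    exact_mod_cast this
  have hL : ((2 * M ^ k - 1 : ℕ) : ℝ) = 2 * (M : ℝ) ^ k - 1 := by
    have := Nat.one_le_pow k M hM1
    rw [Nat.cast_sub (by omega)]; push_cast; ring
  push_cast
  rw [hL]
  have h5 : κ * ((M : ℝ) ^ (k + 1) * m) ≤ κ * (2 * (e : ℝ)) :=
    mul_le_mul_of_nonneg_left he3 hκ.le
  have h6 : (4 * ((k : ℝ) + 1) ^ 2 + 4) * ((M : ℝ) ^ k * m) ≤ κ * M * ((M : ℝ) ^ k * m) :=
    mul_le_mul_of_nonneg_right hMk (by positivity)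
  have h7 : κ * M * ((M : ℝ) ^ k * m) = κ * ((M : ℝ) ^ (k + 1) * m) := by ring
  have h8 : (1 : ℝ) ≤ (M : ℝ) ^ k * m := by nlinarith
  nlinarith [mul_nonneg (sq_nonneg ((k : ℝ) + 1)) (by linarith : (0 : ℝ) ≤ (m : ℝ))]

theorem van_thm (h1 : S_SOL) (h2 : S_DET) : S_VAN := by
  intro k κ hκ
  obtain ⟨M0, hM0⟩ := exists_nat_ge ((4 * ((k : ℝ) + 1) ^ 2 + 4) / κ)
  set M : ℕ := M0 + 1 with hMdef
  have hM1 : 1 ≤ M := by omega
  have hM : (4 * ((k : ℝ) + 1) ^ 2 + 4) / κ ≤ M := by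
    refine hM0.trans ?_
    rw [hMdef]; push_cast; linarith
  clear_value M
  have hMk : 1 ≤ M ^ k := Nat.one_le_pow k M hM1
  obtain ⟨L, hL⟩ : ∃ L : ℕ, L = 2 * M ^ k - 1 := ⟨_, rfl⟩
  have hL1 : L + 1 = 2 * M ^ k := by omega
  obtain ⟨m, hm⟩ : ∃ m : ℕ, m = (2 * M ^ k) ^ (k + 1) := ⟨_, rfl⟩
  obtain ⟨E, hE⟩ : ∃ E : ℕ, E = (k + 1) ^ 2 * L * m := ⟨_, rfl⟩
  refine ⟨L, (E : ℝ) + 1, (m.factorial : ℝ) + 1, by
    have : (0 : ℝ) ≤ (E : ℝ) := Nat.cast_nonneg _
    linarith, by
    have : (0 : ℝ) ≤ (m.factorial : ℝ) := Nat.cast_nonneg _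
    linarith, ?_⟩
  intro B p f v J ξ Y hB hp hf1 hf2 hf3 hξ hξ2 hY1 hY2
  have hB1 : 1 ≤ B := by
    have : (0 : ℝ) ≤ (m.factorial : ℝ) := Nat.cast_nonneg _
    linarith
  have hBm : (m.factorial : ℝ) < B := by linarith
  have hB0 : (0 : ℝ) < B := by linarith
  rcases Y.eq_empty_or_nonempty with hYe | ⟨y0, hy0⟩
  · subst hYe
    refine ⟨1, one_ne_zero, fun j => ?_, fun y hy => absurd hy (Finset.notMem_empty _)⟩
    simp
  obtain ⟨j0, n, c, t, ht, hs⟩ := h1 k p f v J ξ (toZ y0) hp hf2 hf3 hξ (by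
    intro j
    have := (hY1 y0 hy0 j).2
    simp only [toZ]
    exact_mod_cast this)
  have hfd : ∀ y ∈ Y, ∀ j, (p : ℤ) ^ f ∣ toZ y j - toZ y0 j := by
    intro y hy j
    have := ((hY2 y0 hy0 y hy).1 j)
    have h3 := (Nat.modEq_iff_dvd.1 this)
    simp only [toZ]
    exact_mod_cast h3
  have hsy : ∀ y ∈ Y, toZ y j0 ≡ c * ∏ j ∈ univ.erase j0, toZ y j ^ n j
      [ZMOD ((p ^ (v - t) : ℕ) : ℤ)] := by
    intro y hy
    exact hs (toZ y) (hfd y hy) (hY2 y hy y0 hy0).2
  -- the monomials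
  have hcard : Fintype.card (Fin (k + 1) → Fin (L + 1)) = m := by
    rw [Fintype.card_fun, Fintype.card_fin, Fintype.card_fin, hL1, hm]
  let e : Fin m ≃ (Fin (k + 1) → Fin (L + 1)) := (Fintype.equivFinOfCardEq hcard).symm
  -- the determinants vanish
  have hdet : ∀ y : Fin m → (Fin (k + 1) → ℕ), (∀ i, y i ∈ (Y : Set (Fin (k + 1) → ℕ))) →
      (Matrix.of fun a i : Fin m => ∏ j, (toZ (y a) j) ^ (e i j : ℕ)).det = 0 := by
    intro y hy
    have hy' : ∀ i, y i ∈ Y := fun i => by simpa using hy i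
    let P : ℤ := (p : ℤ) ^ f
    let G : Fin m → MvPolynomial (Fin k) ℤ := fun i =>
      (MvPolynomial.C c * ∏ r : Fin k, MvPolynomial.X r ^ n (j0.succAbove r)) ^ (e i j0 : ℕ) *
        ∏ r : Fin k, MvPolynomial.X r ^ (e i (j0.succAbove r) : ℕ)
    have hz : ∀ a : Fin m, ∀ r : Fin k, ∃ z : ℤ,
        toZ (y a) (j0.succAbove r) = toZ y0 (j0.succAbove r) + P * z := by
      intro a r
      obtain ⟨z, hz⟩ := hfd (y a) (hy' a) (j0.succAbove r)
      exact ⟨z, by linarith⟩
    choose z hz using hz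
    have hd := h2 k m (M ^ (k + 1)) P G (fun r => toZ y0 (j0.succAbove r)) z
    have hentry : ∀ a i : Fin m, (Matrix.of fun a i : Fin m =>
        ∏ j, (toZ (y a) j) ^ (e i j : ℕ)) a i ≡
        (Matrix.of fun a i : Fin m => MvPolynomial.eval
          (fun j => toZ y0 (j0.succAbove j) + P * z a j) (G i)) a i
        [ZMOD ((p ^ (v - t) : ℕ) : ℤ)] := by
      intro a i
      simp only [Matrix.of_apply]
      have e1 : (fun r => toZ y0 (j0.succAbove r) + P * z a r) =
          fun r => toZ (y a) (j0.succAbove r) := by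
        funext r; exact (hz a r).symm
      rw [e1]
      simp only [G, map_mul, map_pow, map_prod, MvPolynomial.eval_C, MvPolynomial.eval_X]
      rw [Fin.prod_univ_succAbove _ j0]
      refine Int.ModEq.mul_right _ (Int.ModEq.pow _ ?_)
      refine (hsy (y a) (hy' a)).trans ?_
      have e2 : ∏ j ∈ univ.erase j0, toZ (y a) j ^ n j =
          ∏ r : Fin k, toZ (y a) (j0.succAbove r) ^ n (j0.succAbove r) := by
        have e3 := Fin.prod_univ_succAbove
          (fun j => if j = j0 then (1 : ℤ) else toZ (y a) j ^ n j) j0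
        simp only [if_true, one_mul, Fin.succAbove_ne, if_false] at e3
        rw [← e3, ← Finset.mul_prod_erase univ _ (Finset.mem_univ j0)]
        simp only [if_true, one_mul]
        refine Finset.prod_congr rfl fun j hj => ?_
        rw [if_neg (Finset.ne_of_mem_erase hj)]
      rw [e2]
    have hc := van_cong (p ^ (v - t)) _ _ hentry
    set A : Matrix (Fin m) (Fin m) ℤ :=
      Matrix.of fun a i : Fin m => ∏ j, (toZ (y a) j) ^ (e i j : ℕ) with hA
    set A' : Matrix (Fin m) (Fin m) ℤ := Matrix.of fun a i : Fin m => MvPolynomial.eval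
          (fun j => toZ y0 (j0.succAbove j) + P * z a j) (G i) with hA'
    have hp0 : (0 : ℝ) < (p : ℝ) := by exact_mod_cast hp.pos
    have hBE : (1 : ℝ) ≤ B ^ (E + 1) := one_le_pow₀ hB1
    have hq1 : B ^ (E + 1) ≤ (p : ℝ) ^ (v - t) := by
      have h3 := hξ2 j0
      have h4 : (p : ℝ) ^ t ≤ (ξ j0 : ℝ) := by
        have := Nat.le_of_dvd (hξ j0) ht
        exact_mod_cast this
      have h5 : B ^ ((E : ℝ) + 1) = B ^ (E + 1) := by
        rw [← Real.rpow_natCast]; push_cast; rfl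
      rw [h5] at h3
      have h6 : (p : ℝ) ^ t * B ^ (E + 1) ≤ (p : ℝ) ^ v :=
        (mul_le_mul_of_nonneg_right h4 (by positivity)).trans h3
      have htv : t ≤ v := by
        by_contra hlt
        have h7 : (p : ℝ) ^ v < (p : ℝ) ^ t :=
          pow_lt_pow_right₀ (by exact_mod_cast hp.one_lt) (by omega)
        nlinarith [pow_pos hp0 t]
      have h8 : (p : ℝ) ^ v = (p : ℝ) ^ t * (p : ℝ) ^ (v - t) := by
        rw [← pow_add]; congr 1; omega
      rw [h8] at h6
      exact le_of_mul_le_mul_left h6 (pow_pos hp0 t)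
    have hq2 : B ^ (E + 1) ≤ (p : ℝ) ^ (f * (M ^ (k + 1) * (m - (M ^ (k + 1)) ^ k))) := by
      have h3 := van_num k M f (M ^ (k + 1) * (m - (M ^ (k + 1)) ^ k)) κ B (p : ℝ) hκ hM1 hM hB1
        hf1 (by rw [hm])
      rw [← hL, ← hm, ← hE] at h3
      exact h3
    obtain ⟨q, hqd, hq⟩ : ∃ q : ℕ, (q : ℤ) ∣ A.det ∧ B ^ (E + 1) ≤ (q : ℝ) := by
      have hP : P ^ (M ^ (k + 1) * (m - (M ^ (k + 1)) ^ k)) =
          ((p ^ (f * (M ^ (k + 1) * (m - (M ^ (k + 1)) ^ k))) : ℕ) : ℤ) := by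
        simp only [P]
        rw [← pow_mul]; push_cast; rfl
      rw [hP] at hd
      rcases le_total (v - t) (f * (M ^ (k + 1) * (m - (M ^ (k + 1)) ^ k))) with hle | hle
      · refine ⟨p ^ (v - t), ?_, by push_cast; exact hq1⟩
        have h3 : ((p ^ (v - t) : ℕ) : ℤ) ∣ A'.det :=
          (Int.natCast_dvd_natCast.2 (pow_dvd_pow p hle)).trans hd
        have h4 := dvd_add hc h3
        rwa [sub_add_cancel] at h4
      · refine ⟨p ^ (f * (M ^ (k + 1) * (m - (M ^ (k + 1)) ^ k))), ?_, by push_cast; exact hq2⟩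
        have h3 : ((p ^ (f * (M ^ (k + 1) * (m - (M ^ (k + 1)) ^ k))) : ℕ) : ℤ) ∣
            A.det - A'.det := (Int.natCast_dvd_natCast.2 (pow_dvd_pow p hle)).trans hc
        have h4 := dvd_add h3 hd
        rwa [sub_add_cancel] at h4
    apply Int.eq_zero_of_abs_lt_dvd hqd
    have hx : ∀ a i : Fin m, |(A a i : ℝ)| ≤ B ^ ((k + 1) ^ 2 * L) := by
      intro a i
      simp only [hA, Matrix.of_apply, toZ]
      push_cast
      rw [Finset.abs_prod]
      have h3 : ∀ j : Fin (k + 1), |((y a j : ℝ)) ^ (e i j : ℕ)| ≤ (B ^ (k + 1)) ^ L := by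
        intro j
        have h4 : (y a j : ℝ) ≤ B ^ (k + 1) := by
          have := (hY1 (y a) (hy' a) j).1
          rw [← Real.rpow_natCast]
          push_cast
          exact this
        have h5 : (1 : ℝ) ≤ B ^ (k + 1) := one_le_pow₀ hB1
        rw [abs_pow, Nat.abs_cast]
        calc (y a j : ℝ) ^ (e i j : ℕ) ≤ (B ^ (k + 1)) ^ (e i j : ℕ) :=
              pow_le_pow_left₀ (Nat.cast_nonneg _) h4 _
          _ ≤ (B ^ (k + 1)) ^ L := pow_le_pow_right₀ h5 (Nat.lt_succ_iff.1 (e i j).2)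
      calc ∏ j : Fin (k + 1), |((y a j : ℝ)) ^ (e i j : ℕ)|
          ≤ ∏ _j : Fin (k + 1), (B ^ (k + 1)) ^ L :=
            Finset.prod_le_prod (fun _ _ => abs_nonneg _) (fun j _ => h3 j)
        _ = B ^ ((k + 1) ^ 2 * L) := by
            rw [Finset.prod_const, Finset.card_univ, Fintype.card_fin, ← pow_mul, ← pow_mul]
            congr 1; ring
    have h9 := van_bound A _ hx
    rw [← pow_mul, ← hE] at h9
    have h10 : |(A.det : ℝ)| < (q : ℝ) := by
      refine lt_of_le_of_lt h9 (lt_of_lt_of_le ?_ hq)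
      rw [pow_succ]
      have := pow_pos hB0 E
      nlinarith
    exact_mod_cast h10
  obtain ⟨cc, hcc0, hcc⟩ := van_lin m (Y : Set (Fin (k + 1) → ℕ))
    (fun y i => ∏ j, (toQ y j) ^ (e i j : ℕ)) (by
      intro y hy
      have h3 := hdet y hy
      have h4 : (Matrix.of fun a i : Fin m => ∏ j, (toQ (y a) j) ^ (e i j : ℕ)) =
          (Matrix.of fun a i : Fin m => ∏ j, (toZ (y a) j) ^ (e i j : ℕ)).map
            (Int.castRingHom ℚ) := by
        ext a i
        simp [toQ, toZ]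
      rw [h4]
      have e1 := RingHom.map_det (Int.castRingHom ℚ)
        (Matrix.of fun a i : Fin m => ∏ j, (toZ (y a) j) ^ (e i j : ℕ))
      rw [RingHom.mapMatrix_apply, h3, map_zero] at e1
      exact e1.symm)
  let ex : Fin m → (Fin (k + 1) →₀ ℕ) := fun i =>
    Finsupp.equivFunOnFinite.symm (fun j => (e i j : ℕ))
  have hexinj : Function.Injective ex := by
    intro i i' h
    have h3 := Finsupp.equivFunOnFinite.symm.injective h
    apply e.injective
    funext j
    exact Fin.ext (congrFun h3 j)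
  refine ⟨∑ i, MvPolynomial.monomial (ex i) (cc i), ?_, ?_, ?_⟩
  · intro h0
    apply hcc0
    funext i
    have h3 := congrArg (MvPolynomial.coeff (ex i)) h0
    rw [MvPolynomial.coeff_sum] at h3
    simp only [MvPolynomial.coeff_monomial, MvPolynomial.coeff_zero] at h3
    rw [Finset.sum_eq_single i (fun b _ hb => if_neg (fun h => hb (hexinj h)))
      (fun h => absurd (Finset.mem_univ _) h), if_pos rfl] at h3
    simpa using h3
  · intro j
    rw [MvPolynomial.degreeOf_le_iff]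
    intro s hs
    have h3 := MvPolynomial.support_sum hs
    simp only [Finset.mem_biUnion, Finset.mem_univ, true_and] at h3
    obtain ⟨i, hi⟩ := h3
    have h4 := Finset.mem_singleton.1 (MvPolynomial.support_monomial_subset hi)
    rw [h4]
    simp only [ex, Finsupp.equivFunOnFinite_symm_apply_apply]
    exact Nat.lt_succ_iff.1 (e i j).2
  · intro y hy
    rw [map_sum]
    rw [← hcc y (by simpa using hy)]
    refine Finset.sum_congr rfl fun i _ => ?_
    rw [MvPolynomial.eval_monomial, Finsupp.prod_fintype _ _ (by simp)]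
    simp [ex]

end Pool.SHA
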